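import Mathlib
import Pool.Agent.H57.Besov.Bounds

/-!
Problem MP_498700_an, question Q1, answered in the negative for every `N, d ≥ 1` and every
`q ∈ (1, ∞)`: logarithmic growth of the Gagliardo seminorms of order `1/q` of all mollifications
(with arbitrary kernels in `W^{1,1}`) does not imply membership in the Besov space
`B^{1/q}_{q,∞}`.
-/

open MeasureTheory Filter Topology Set
open scoped ContDiff

namespace Pool.Agent.Results.MP_498700_an.LogGrowth

/-- The `q`-th power of the Gagliardo seminorm of order `1/q` of `v : ℝ^N → ℝ^d`,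
`∫∫ |v(x) - v(y)|^q / |x - y|^(N+1) dx dy ∈ [0, ∞]`. -/
noncomputable def gagliardoPow {N d : ℕ} (q : ℝ)
    (v : EuclideanSpace ℝ (Fin N) → EuclideanSpace ℝ (Fin d)) : ENNReal :=
  ∫⁻ x, ∫⁻ y, ENNReal.ofReal (‖v x - v y‖ ^ q / ‖x - y‖ ^ (N + 1))

/-- The `q`-th power of the Besov seminorm of `B^{1/q}_{q,∞}(ℝ^N, ℝ^d)`,
`sup_{h ≠ 0} ∫ |u(x+h) - u(x)|^q / |h| dx ∈ [0, ∞]`. -/
noncomputable def besovPow {N d : ℕ} (q : ℝ)
    (u : EuclideanSpace ℝ (Fin N) → EuclideanSpace ℝ (Fin d)) : ENNReal :=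
  ⨆ h : {h : EuclideanSpace ℝ (Fin N) // h ≠ 0},
    ∫⁻ x, ENNReal.ofReal (‖u (x + h) - u x‖ ^ q / ‖(h : EuclideanSpace ℝ (Fin N))‖)

/-- `η ∈ W^{1,1}(ℝ^N)`: `η` is integrable and has integrable weak first partial derivatives. -/
def MemW11 {N : ℕ} (η : EuclideanSpace ℝ (Fin N) → ℝ) : Prop :=
  Integrable η ∧ ∀ i : Fin N, ∃ g : EuclideanSpace ℝ (Fin N) → ℝ, Integrable g ∧
    ∀ φ : EuclideanSpace ℝ (Fin N) → ℝ, ContDiff ℝ ∞ φ → HasCompactSupport φ →
      ∫ x, η x * fderiv ℝ φ x (EuclideanSpace.single i 1) = - ∫ x, g x * φ x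

/-- The mollification `u_ε(x) = (η_ε * u)(x) = ∫ η(z) u(x - ε z) dz`. -/
noncomputable def mollify {N d : ℕ} (η : EuclideanSpace ℝ (Fin N) → ℝ) (ε : ℝ)
    (u : EuclideanSpace ℝ (Fin N) → EuclideanSpace ℝ (Fin d)) (x : EuclideanSpace ℝ (Fin N)) :
    EuclideanSpace ℝ (Fin d) :=
  ∫ z, η z • u (x - ε • z)

open Pool.Agent.H57.Besov in
/-- For all `N, d ≥ 1` and `1 < q < ∞` there is `u ∈ L^q(ℝ^N, ℝ^d)` such that for every
`η ∈ W^{1,1}(ℝ^N)` the quantity `[u_ε]^q_{W^{1/q,q}} / |ln ε|` has finite upper limit as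
`ε → 0⁺`, while `[u]_{B^{1/q}_{q,∞}} = ∞`. -/
theorem result (N d : ℕ) (hN : 1 ≤ N) (hd : 1 ≤ d) (q : ℝ) (hq : 1 < q) :
    ∃ u : EuclideanSpace ℝ (Fin N) → EuclideanSpace ℝ (Fin d),
      MemLp u (ENNReal.ofReal q) volume ∧
      (∀ η : EuclideanSpace ℝ (Fin N) → ℝ, MemW11 η →
        limsup (fun ε : ℝ => gagliardoPow q (mollify η ε u) / ENNReal.ofReal |Real.log ε|)
          (𝓝[>] 0) < ⊤) ∧
      besovPow q u = ⊤ := by
  have hq0 : 0 < q := by linarith
  set m : ℕ := ⌈q⌉₊ with hm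
  have hqm : q ≤ m := Nat.le_ceil q
  set e : EuclideanSpace ℝ (Fin d) := EuclideanSpace.single (⟨0, hd⟩ : Fin d) (1 : ℝ) with he
  have hen : ‖e‖ = 1 := by simp [he]
  refine ⟨fun x => U hN q m x • e, ?_, ?_, ?_⟩
  · refine (memLp_U hN hq hqm).of_le ?_ ?_
    · exact (measurable_U hN q m).aestronglyMeasurable.smul_const e
    · exact Eventually.of_forall fun x => by rw [norm_smul, hen, mul_one]
  · intro η hη
    obtain ⟨hηi, hηw⟩ := hη
    obtain ⟨g, hg, hw⟩ := hηw ⟨0, hN⟩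
    obtain ⟨C, hC, hbound⟩ := upper hN hq hqm hηi hg hw
    refine lt_of_le_of_lt ?_ hC
    refine limsup_le_of_le (by isBoundedDefault) ?_
    have hev : ∀ᶠ ε : ℝ in 𝓝[>] 0, 0 < ε ∧ ε < 1 / 2 := by
      have h1 : ∀ᶠ ε : ℝ in 𝓝[>] 0, ε < 1 / 2 :=
        (eventually_lt_nhds (by norm_num : (0 : ℝ) < 1 / 2)).filter_mono nhdsWithin_le_nhds
      exact (eventually_mem_nhdsWithin.and h1).mono fun ε h => ⟨h.1, h.2⟩
    filter_upwards [hev] with ε hε
    have hkey : gagliardoPow q (mollify η ε (fun x => U hN q m x • e)) =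
        J q (fun x => ∫ z, η z * U hN q m (x - ε • z)) := by
      unfold gagliardoPow J
      congr 1; ext x; congr 1; ext y
      have hm1 : ∀ x, mollify η ε (fun x => U hN q m x • e) x =
          (∫ z, η z * U hN q m (x - ε • z)) • e := by
        intro x
        unfold mollify
        rw [← integral_smul_const]
        congr 1; ext1 z
        rw [smul_smul]
      rw [hm1, hm1, ← sub_smul, norm_smul, hen, mul_one, div_eq_mul_one_div,
        ENNReal.ofReal_mul (by positivity), ← ENNReal.ofReal_rpow_of_nonneg (norm_nonneg _) hq0.le,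
        ofReal_norm]
      rfl
    rw [hkey]
    exact ENNReal.div_le_of_le_mul (hbound ε hε.1 hε.2)
  · set I : ENNReal := ∫⁻ x, ‖prof hN x‖ₑ ^ q with hI
    have hIpos : 0 < I := lintegral_prof_pos hN hq0
    have hlow : ∀ k : ℕ, ENNReal.ofReal ((2 ^ k) ^ q / 2) * I ≤
        besovPow q (fun x => U hN q m x • e) := by
      intro k
      refine (lower hN hq m k).trans ?_
      have hL := Lk_pos m k
      have hnorm : ‖(2 / Lk m k) • dir hN‖ = 2 / Lk m k := by
        rw [norm_smul, norm_dir, mul_one, Real.norm_of_nonneg (by positivity)]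
      have hne : (2 / Lk m k) • dir hN ≠ 0 := by
        rw [← norm_ne_zero_iff, hnorm]
        positivity
      refine le_trans (le_of_eq ?_)
        (le_iSup (fun h : {h : EuclideanSpace ℝ (Fin N) // h ≠ 0} =>
        ∫⁻ x, ENNReal.ofReal (‖U hN q m (x + h) • e - U hN q m x • e‖ ^ q /
          ‖(h : EuclideanSpace ℝ (Fin N))‖)) ⟨(2 / Lk m k) • dir hN, hne⟩)
      simp only [hnorm]
      congr 1; ext x
      rw [← sub_smul, norm_smul, hen, mul_one, div_eq_mul_one_div (‖_‖ ^ q),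
        ENNReal.ofReal_mul (by positivity), ← ENNReal.ofReal_rpow_of_nonneg (norm_nonneg _) hq0.le,
        ofReal_norm]
    by_contra hB
    set B : ENNReal := besovPow q (fun x => U hN q m x • e) with hBdef
    have h1 : ∀ k : ℕ, (k : ENNReal) * (ENNReal.ofReal (1 / 2) * I) ≤ B := by
      intro k
      refine le_trans ?_ (hlow k)
      rw [← mul_assoc]
      gcongr
      rw [← ENNReal.ofReal_natCast, ← ENNReal.ofReal_mul (by positivity)]
      apply ENNReal.ofReal_le_ofReal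
      have h2 : (k : ℝ) ≤ (2 ^ k) ^ q := by
        calc (k : ℝ) ≤ 2 ^ k := by exact_mod_cast Nat.lt_two_pow_self.le
          _ = (2 ^ k) ^ (1 : ℝ) := by rw [Real.rpow_one]
          _ ≤ (2 ^ k) ^ q := Real.rpow_le_rpow_of_exponent_le (one_le_pow₀ (by norm_num)) hq.le
      linarith
    have hI' : ENNReal.ofReal (1 / 2) * I ≠ 0 := by
      refine mul_ne_zero ?_ hIpos.ne'
      simp
    obtain ⟨k, hk⟩ := ENNReal.exists_nat_mul_gt hI' hB
    exact absurd (h1 k) (not_le.2 hk)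

end Pool.Agent.Results.MP_498700_an.LogGrowth
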